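import Pool.Agent.Run7.h620.PD.Uni

set_option autoImplicit false

/-!
# Palindromes with two digits for which all changes of `v` digits give almost primes

For every `v` there are `c > 0`, `r` and `k` such that for all large `K` and EVERY set `V` of at most `v` places at
least `c 2 ^ (K / 2) / K ^ k` of the palindromes `n` with exactly `K` base `b` digits, all of them `e` or `f`, have the
following property: each of the at most `b ^ v` integers which arise from `n` by replacing the digits at the places
in `V` by arbitrary digits has at most `r` prime factors, counted with multiplicity. If `V` consists of the central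
places, then all the palindromes with the same outer digits as `n` are among these integers.

Proof. The new integers are of the form `n + ∑_{i ∈ V} ε_i b ^ i` with `|ε_i| < b`. So it suffices to apply the sieve to
at most `(2 b) ^ v` linear forms, whose constant terms may be as large as `b ^ K`; this needs the uniformity of the
sieve in the constant terms, and a residue class to a fixed modulus in which none of the forms is divisible by a high
power of a small prime, which is found by a counting argument and exists for all constant terms.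
-/

namespace Pool.Agent.Results.MP_540de1_nt.AllChangesAlmostPrime

open Finset Filter

/-- `n` has exactly `K` base `b` digits, all of them `e` or `f`, and they read the same backwards. -/
def Pal (b e f K n : ℕ) : Prop :=
  (Nat.digits b n).length = K ∧ (Nat.digits b n).reverse = Nat.digits b n ∧ ∀ d ∈ Nat.digits b n, d = e ∨ d = f

/-- The base `b` digit of `n` at the place `i` (the last digit has the place `0`). -/
def digit (b n i : ℕ) : ℕ := n / b ^ i % b

theorem sum_digit (b : ℕ) (K n : ℕ) : n = b ^ K * (n / b ^ K) + ∑ i ∈ range K, digit b n i * b ^ i := by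
  induction K with
  | zero => simp
  | succ K ih =>
    rw [sum_range_succ]
    have h1 : n / b ^ K = b * (n / b ^ (K + 1)) + digit b n K := by
      unfold digit
      rw [pow_succ, ← Nat.div_div_eq_div_mul]
      exact (Nat.div_add_mod _ _).symm
    calc n = b ^ K * (n / b ^ K) + ∑ i ∈ range K, digit b n i * b ^ i := ih
      _ = b ^ K * (b * (n / b ^ (K + 1)) + digit b n K) + ∑ i ∈ range K, digit b n i * b ^ i := by rw [← h1]
      _ = _ := by ring

theorem surj (D : Finset ℤ) (k : ℕ) (hD : D.card ≤ k) (B : ℕ) (hB : ∀ d ∈ D, d.natAbs ≤ B) :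
    ∃ cc : ℕ → ℤ, (∀ i < k, (cc i).natAbs ≤ B) ∧ ∀ d ∈ D, ∃ i < k, cc i = d := by
  refine ⟨fun i => D.toList.getD i 0, ?_, ?_⟩
  · intro i _
    by_cases h : i < D.toList.length
    · simp only [List.getD_eq_getElem _ _ h]
      exact hB _ (mem_toList.1 (List.getElem_mem h))
    · simp only [List.getD_eq_default _ _ (not_lt.1 h)]
      simp
  · intro d hd
    obtain ⟨i, hi, hid⟩ := List.getElem_of_mem (mem_toList.2 hd)
    refine ⟨i, ?_, ?_⟩
    · rw [length_toList] at hi
      omega
    · simp only [List.getD_eq_getElem _ _ hi]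
      exact hid

open Pool.Agent.Run7.h620.PD in
open Classical in
/-- **Many palindromes with two digits such that all changes of the digits at the places in `V` give almost primes.** -/
theorem result : ∀ b : ℕ, 2 ≤ b → ∀ e f : ℕ, e < b → f < b → e ≠ 0 → e ≠ f → ∀ v : ℕ,
    ∃ c : ℝ, 0 < c ∧ ∃ k r : ℕ, ∀ᶠ K : ℕ in atTop, ∀ V : Finset ℕ, V.card ≤ v →
      c * (2 : ℝ) ^ ((K : ℝ) / 2) / (K : ℝ) ^ k ≤
      (((Finset.range (b ^ K)).filter (fun n : ℕ => Pal b e f K n ∧
        ∀ n' < b ^ K, (∀ i < K, i ∉ V → digit b n' i = digit b n i) →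
          n' ≠ 0 ∧ n'.primeFactorsList.length ≤ r)).card : ℝ) := by
  intro b hb e f he hf he0 hef v
  obtain ⟨c, hc, r, h⟩ := lin_uniform b hb e f he hf he0 (Ne.symm hef) ((2 * b) ^ v) (Nat.pow_pos (by omega))
    (fun _ => 1) (fun _ _ => one_ne_zero) 1 le_rfl
  refine ⟨c, hc, (2 * b) ^ v, r, ?_⟩
  filter_upwards [h] with K hK V hV
  have hb0 : 0 < b := by omega
  set W : Finset ℕ := (range K).filter (fun i => i ∈ V) with hW
  have hWc : W.card ≤ v := by
    refine le_trans (card_le_card ?_) hV
    intro i hi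
    exact (mem_filter.1 hi).2
  set D : Finset ℤ := (W.pi (fun _ => Icc (-((b : ℤ) - 1)) ((b : ℤ) - 1))).image
    (fun ε => ∑ i ∈ W.attach, ε i.1 i.2 * (b : ℤ) ^ i.1) with hD
  have hDc : D.card ≤ (2 * b) ^ v := by
    refine card_image_le.trans ?_
    rw [card_pi, prod_const, Int.card_Icc]
    have h1 : ((b : ℤ) - 1 + 1 - -((b : ℤ) - 1)).toNat ≤ 2 * b := by omega
    calc ((b : ℤ) - 1 + 1 - -((b : ℤ) - 1)).toNat ^ W.card ≤ (2 * b) ^ W.card := Nat.pow_le_pow_left h1 _
      _ ≤ (2 * b) ^ v := Nat.pow_le_pow_right (by omega) hWc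
  have hgeo : ∀ K : ℕ, ∑ i ∈ range K, ((b : ℤ) - 1) * (b : ℤ) ^ i = (b : ℤ) ^ K - 1 := by
    intro K
    rw [← mul_sum]
    have := mul_geom_sum (b : ℤ) K
    exact this
  have hDB : ∀ d ∈ D, d.natAbs ≤ b ^ (1 * K) := by
    intro d hd
    rw [hD, mem_image] at hd
    obtain ⟨ε, hε, rfl⟩ := hd
    rw [Finset.mem_pi] at hε
    zify
    rw [one_mul]
    calc |∑ i ∈ W.attach, ε i.1 i.2 * (b : ℤ) ^ i.1| ≤ ∑ i ∈ W.attach, |ε i.1 i.2 * (b : ℤ) ^ i.1| := abs_sum_le_sum_abs _ _
      _ ≤ ∑ i ∈ W.attach, ((b : ℤ) - 1) * (b : ℤ) ^ i.1 := by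
          refine sum_le_sum fun i _ => ?_
          have h1 := mem_Icc.1 (hε i.1 i.2)
          rw [abs_mul, abs_of_nonneg (pow_nonneg (by omega : (0 : ℤ) ≤ b) i.1)]
          exact mul_le_mul_of_nonneg_right (abs_le.2 h1) (pow_nonneg (by omega) _)
      _ = ∑ i ∈ W, ((b : ℤ) - 1) * (b : ℤ) ^ i := sum_attach W (fun i => ((b : ℤ) - 1) * (b : ℤ) ^ i)
      _ ≤ ∑ i ∈ range K, ((b : ℤ) - 1) * (b : ℤ) ^ i := by
          apply sum_le_sum_of_subset_of_nonneg (filter_subset _ _)
          intro i _ _
          exact mul_nonneg (by omega) (pow_nonneg (by omega) _)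
      _ = (b : ℤ) ^ K - 1 := hgeo K
      _ ≤ (b : ℤ) ^ K := by omega
  obtain ⟨cc, hcc1, hcc2⟩ := surj D _ hDc _ hDB
  obtain ⟨P, hP1, hP2⟩ := hK cc hcc1
  refine hP1.trans ?_
  have hle : P ⊆ (Finset.range (b ^ K)).filter (fun n : ℕ => Pal b e f K n ∧
        ∀ n' < b ^ K, (∀ i < K, i ∉ V → digit b n' i = digit b n i) →
          n' ≠ 0 ∧ n'.primeFactorsList.length ≤ r) := by
    intro n hn
    obtain ⟨h1, h2, h3⟩ := hP2 n hn
    rw [mem_filter, mem_range]
    refine ⟨h1, h2, ?_⟩
    intro n' hn' hag
    have hmem : (n' : ℤ) - n ∈ D := by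
      rw [hD, mem_image]
      refine ⟨fun i _ => (digit b n' i : ℤ) - digit b n i, ?_, ?_⟩
      · rw [Finset.mem_pi]
        intro i _
        have g1 : digit b n' i < b := Nat.mod_lt _ hb0
        have g2 : digit b n i < b := Nat.mod_lt _ hb0
        rw [mem_Icc]
        omega
      · rw [sum_attach W (fun i => ((digit b n' i : ℤ) - digit b n i) * (b : ℤ) ^ i)]
        have e1 := sum_digit b K n
        have e2 := sum_digit b K n'
        rw [Nat.div_eq_of_lt h1, mul_zero, zero_add] at e1
        rw [Nat.div_eq_of_lt hn', mul_zero, zero_add] at e2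
        have e3 : (n' : ℤ) - n = ∑ i ∈ range K, ((digit b n' i : ℤ) - digit b n i) * (b : ℤ) ^ i := by
          conv_lhs => rw [e1, e2]
          push_cast
          rw [← sum_sub_distrib]
          exact sum_congr rfl fun i _ => by ring
        rw [e3, hW, sum_filter]
        refine sum_congr rfl fun i hi => ?_
        split_ifs with hiV
        · rfl
        · rw [hag i (mem_range.1 hi) hiV, sub_self, zero_mul]
    obtain ⟨i, hi, hci⟩ := hcc2 _ hmem
    obtain ⟨g3, g4⟩ := h3 i hi
    have g5 : 1 * (n : ℤ) + cc i = n' := by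
      rw [hci]
      ring
    rw [g5] at g3 g4
    rw [Int.natAbs_natCast, ArithmeticFunction.cardFactors_apply] at g4
    exact ⟨by exact_mod_cast g3, g4⟩
  exact_mod_cast card_le_card hle

end Pool.Agent.Results.MP_540de1_nt.AllChangesAlmostPrime
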