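import Pool.Agent.Results.MP_540de1_nt.MissingDigits
import Pool.Agent.Run7.h414.PM.PalD

set_option autoImplicit false

/-!
# Decimal palindromes with missing digits, in random models of the primes and among randomly displaced primes

Let `0 ≤ θ < 1` and let `k` be 7, 8 or 9. We replace the primes by a random set, and show that almost surely, for ALL large
`N`, ALL `K ≤ θ N`, ALL `w` with `K + 1` decimal digits and first digit 1, 3, 7 or 9 and ALL intervals `{a, …, a + k - 1}` of
`k` decimal digits, the number of the palindromes in the random set with `2 N + 1` digits, with the leading digits `w` and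
with all the digits in the places `K + 1, …, 2 N - K - 1` in that interval is asymptotic to its expected value, which is at
least `6 ^ (N - K) / (9 N)`. This holds for
(1) every sequential random model of the primes with a sieve `z m ≤ m ^ ((1 - θ) / 51)`: the multiples of the primes
`q ≤ z m` are forbidden for `m`, and every other `m` is accepted with a conditional probability asymptotic to
`∏_{q ≤ z m} (1 - 1/q)⁻¹ / log m`, the decisions being allowed to depend on each other in an arbitrary way; and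
(2) the perturbed primes: the `m` for which the true number `m + J_m w_m` is prime, `w_m` the product of the primes up to
`z m ≤ C log log m`, and the `J_m` independent and uniformly distributed on `{0, …, Q m - 1}`, `Q m w_m` lying between
`m / (log m)^C` and `m`.
-/

namespace Pool.Agent.Results.MP_540de1_nt.ModelsMissingDigits

open Filter MeasureTheory ProbabilityTheory
open scoped Topology

/-- No prime `q ≤ z m` divides `m`. -/
def Sieved (z : ℕ → ℕ) (m : ℕ) : Prop := ∀ q, q.Prime → q ≤ z m → ¬ q ∣ m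

/-- `V x = ∏_{q ≤ x, q prime} (1 - 1/q)⁻¹`. -/
noncomputable def V (x : ℕ) : ℝ := ∏ q ∈ (Finset.Icc 1 x).filter Nat.Prime, (1 - (q : ℝ)⁻¹)⁻¹

open Classical in
/-- The density of the model at `m`. -/
noncomputable def rho (z : ℕ → ℕ) (m : ℕ) : ℝ := if Sieved z m then V (z m) / Real.log m else 0

open Classical in
/-- The decimal palindromes `n < 10 ^ (2 N + 1)` with `⌊n / 10 ^ (2 N - K)⌋ = w` whose digits in the places
`K + 1, …, 2 N - K - 1` (the digit in the place `i` being the coefficient of `10 ^ i`) are in `{a, …, a + k - 1}`. If `w` has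
`K + 1` digits, these numbers have `2 N + 1` digits, and `w` is formed by the `K + 1` leading digits. -/
noncomputable def Pal (k N K w a : ℕ) : Finset ℕ :=
  (Finset.range (10 ^ (2 * N + 1))).filter
    (fun n => n / 10 ^ (2 * N - K) = w ∧ (Nat.digits 10 n).reverse = Nat.digits 10 n ∧
      ∀ i : ℕ, K < i → i < 2 * N - K → a ≤ n / 10 ^ i % 10 ∧ n / 10 ^ i % 10 < a + k)

open Classical in
/-- The number of these palindromes in `S`. -/
noncomputable def R (S : Set ℕ) (k N K w a : ℕ) : ℕ := ((Pal k N K w a).filter (fun n => n ∈ S)).card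

/-- The expected number. -/
noncomputable def E (z : ℕ → ℕ) (k N K w a : ℕ) : ℝ := ∑ n ∈ Pal k N K w a, rho z n

/-- `K ≤ θ N`, `w` has `K + 1` digits, the leading one prime to 10, and `{a, …, a + k - 1}` consists of decimal digits. -/
def Range (θ : ℝ) (k N K w a : ℕ) : Prop :=
  (K : ℝ) ≤ θ * N ∧ 10 ^ K ≤ w ∧ w < 10 ^ (K + 1) ∧ (w / 10 ^ K).Coprime 10 ∧ a + k ≤ 10

/-- The law: for every `η > 0` and all large `N`, for all `K`, `w` and `a` in the range, `|R - E| ≤ η E`. -/
def Law (θ : ℝ) (k : ℕ) (z : ℕ → ℕ) (S : Set ℕ) : Prop :=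
  ∀ η : ℝ, 0 < η → ∀ᶠ N : ℕ in atTop, ∀ K w a : ℕ, Range θ k N K w a →
    |(R S k N K w a : ℝ) - E z k N K w a| ≤ η * E z k N K w a

/-- A sequential random model of the primes with the sieve `z`: the event `A m` (that `m` belongs to the random set) is
decided at time `m`; it is empty if some prime `q ≤ z m` divides `m`; and almost surely the conditional probability of
`A (m + 1)` given the information up to time `m` is asymptotic to `V (z (m + 1)) / log m` along the `m` for which `m + 1` has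
no prime factor `q ≤ z (m + 1)`. -/
structure Model {Ω : Type} [m0 : MeasurableSpace Ω] (μ : Measure Ω) (ℱ : Filtration ℕ m0) (z : ℕ → ℕ) (A : ℕ → Set Ω) : Prop where
  adapted : ∀ m, MeasurableSet[ℱ m] (A m)
  sieved : ∀ m, ¬ Sieved z m → A m = ∅
  density : ∀ᵐ ω ∂μ, Tendsto
    (fun m : ℕ => (μ[(A (m + 1)).indicator (fun _ => (1 : ℝ)) | ℱ m]) ω * Real.log m / V (z (m + 1)))
    (atTop ⊓ 𝓟 {m : ℕ | Sieved z (m + 1)}) (𝓝 1)

/-- The random variables `J m` are independent, and `J m` is uniformly distributed on `{0, …, Q m - 1}`. -/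
structure IndependentUniform {Ω : Type} [MeasurableSpace Ω] (μ : Measure Ω) (Q : ℕ → ℕ) (J : ℕ → Ω → ℕ) : Prop where
  measurable : ∀ m, Measurable (J m)
  independent : iIndepFun J μ
  uniform : ∀ m, 0 < Q m ∧ ∀ j < Q m, μ.real {ω | J m ω = j} = 1 / Q m

/-- The perturbed primes: the `m` for which `m + j_m w_m` is a prime larger than `z m`, where `w_m` is the product of
the primes up to `z m`. -/
def Perturbed (z : ℕ → ℕ) (j : ℕ → ℕ) : Set ℕ :=
  {m | (m + j m * primorial (z m)).Prime ∧ z m < m + j m * primorial (z m)}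

/-- **Palindromes with missing digits.** Let `0 ≤ θ < 1` and let `k` be 7, 8 or 9. If `z m ≤ m ^ ((1 - θ) / 51)` and
`V (z m) < log m` for large `m`, then `E ≥ 6 ^ (N - K) / (9 N)` for all large `N` and all `K`, `w`, `a` in the range, and
(1) the law holds almost surely for every sequential random model of the primes with the sieve `z`.
(2) If `z m ≤ C log log m` and `m / (log m)^C ≤ Q m w_m ≤ m` for large `m`, then the law holds almost surely for the
perturbed primes. -/
theorem result (θ : ℝ) (hθ0 : 0 ≤ θ) (hθ1 : θ < 1) (k : ℕ) (hk : k = 7 ∨ k = 8 ∨ k = 9) :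
    (∀ z : ℕ → ℕ, (∀ᶠ m : ℕ in atTop, (z m : ℝ) ≤ (m : ℝ) ^ ((1 - θ) / 51)) → (∀ᶠ m : ℕ in atTop, V (z m) < Real.log m) →
      (∀ᶠ N : ℕ in atTop, ∀ K w a : ℕ, Range θ k N K w a → (6 : ℝ) ^ (N - K) / (9 * N) ≤ E z k N K w a) ∧
      (∀ (Ω : Type) (m0 : MeasurableSpace Ω) (μ : Measure Ω) (_ : IsProbabilityMeasure μ) (ℱ : Filtration ℕ m0)
        (A : ℕ → Set Ω), Model μ ℱ z A → ∀ᵐ ω ∂μ, Law θ k z {m | ω ∈ A m})) ∧
    (∀ (C : ℕ) (z Q : ℕ → ℕ), (∀ᶠ m : ℕ in atTop, (z m : ℝ) ≤ C * Real.log (Real.log m)) →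
      (∀ᶠ m : ℕ in atTop, (m : ℝ) / Real.log m ^ C ≤ Q m * primorial (z m) ∧ Q m * primorial (z m) ≤ m) →
      ∀ (Ω : Type) (_ : MeasurableSpace Ω) (μ : Measure Ω) (_ : IsProbabilityMeasure μ) (J : ℕ → Ω → ℕ),
        IndependentUniform μ Q J → ∀ᵐ ω ∂μ, Law θ k z (Perturbed z (fun m => J m ω))) := by
  classical
  have hθ : 0 < 1 - θ := by linarith
  obtain ⟨r, hr⟩ : ∃ r : ℕ, 843 / 100 ≤ ((r : ℝ) - 182 / 1000) * (1 - θ) := by
    refine ⟨⌈843 / 100 / (1 - θ)⌉₊ + 1, ?_⟩
    have h1 := Nat.le_ceil (843 / 100 / (1 - θ))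
    rw [div_le_iff₀ hθ] at h1
    push_cast
    nlinarith
  have h540 := Pool.Agent.Results.MP_540de1_nt.MissingDigits.result k r θ hθ0 hθ1 (by
    rcases hk with rfl | rfl | rfl
    · exact Or.inr (Or.inr ⟨rfl, hr⟩)
    · exact Or.inr (Or.inl ⟨rfl, by linarith⟩)
    · exact Or.inl ⟨rfl, by linarith⟩)
  have hlow : ∀ᶠ N : ℕ in atTop, ∀ K : ℕ, (K : ℝ) ≤ θ * N → ∀ w : ℕ, 10 ^ K ≤ w → w < 10 ^ (K + 1) →
      (w / 10 ^ K).Coprime 10 → ∀ a : ℕ, a + k ≤ 10 → (6 : ℝ) ^ (N - K) ≤
        (((Pool.Agent.Run7.h414.PM.PalD.Cl k N K w a).filter (fun n => ∀ p : ℕ, p ∈ n.primeFactorsList →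
          (10 : ℝ) ^ (((N - K : ℕ) : ℝ) / 25) < p)).card : ℝ) := by
    filter_upwards [h540] with N hN K hK w hw1 hw2 hw3 a ha
    refine (hN K hK w hw1 hw2 hw3 a ha).trans ?_
    exact_mod_cast Finset.card_le_card (by
      intro n hn
      unfold Pool.Agent.Run7.h414.PM.PalD.Cl
      rw [Finset.mem_filter] at hn ⊢
      rw [Finset.mem_filter]
      obtain ⟨g1, g2, g3, g4, g5, g6⟩ := hn
      exact ⟨⟨g1, g2, g3, g4⟩, g6⟩)
  have hpart : ∀ z : ℕ → ℕ, (∀ᶠ m : ℕ in atTop, (z m : ℝ) ≤ (m : ℝ) ^ ((1 - θ) / 51)) →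
      (∀ᶠ m : ℕ in atTop, V (z m) < Real.log m) →
      (∀ᶠ N : ℕ in atTop, ∀ K w a : ℕ, Range θ k N K w a → (6 : ℝ) ^ (N - K) / (9 * N) ≤ E z k N K w a) ∧
      (∀ (Ω : Type) (m0 : MeasurableSpace Ω) (μ : Measure Ω) (_ : IsProbabilityMeasure μ) (ℱ : Filtration ℕ m0)
        (A : ℕ → Set Ω), Model μ ℱ z A → ∀ᵐ ω ∂μ, Law θ k z {m | ω ∈ A m}) := by
    intro z hz hVz
    have hE := Pool.Agent.Run7.h414.PM.PalD.E_low k θ hθ1 z hz hlow
    have hV : ∀ᶠ m : ℕ in atTop, Pool.Agent.N233.GM.W (z m) / Real.log m < 1 := by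
      filter_upwards [hVz, Pool.Agent.Run7.h414.PM.PalD.logt'.eventually_ge_atTop 1] with m h1 h2
      have h3 : Pool.Agent.N233.GM.W (z m) < Real.log m := h1
      rw [div_lt_one (by linarith)]
      exact h3
    refine ⟨?_, ?_⟩
    · filter_upwards [hE] with N hN K w a hx
      exact hN K hx.1 w hx.2.1 hx.2.2.1 hx.2.2.2.1 a hx.2.2.2.2
    · intro Ω m0 μ hμ ℱ A hA
      have h := Pool.Agent.Run7.h414.PM.PalD.model (μ := μ) (ℱ := ℱ) (A := A) k z hV hA.adapted hA.sieved hA.density
      filter_upwards [h] with ω hω η hη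
      have hR : ∀ N K w a : ℕ, (R {m | ω ∈ A m} k N K w a : ℝ) =
          ∑ m ∈ Pool.Agent.Run7.h414.PM.PalD.Cl k N K w a, Pool.Agent.R528.RM.In A m ω := by
        intro N K w a
        unfold R
        rw [Finset.card_filter]
        push_cast
        refine Finset.sum_congr rfl fun m _ => ?_
        unfold Pool.Agent.R528.RM.In
        by_cases h : ω ∈ A m
        · simp [h]
        · simp [h]
      have hf := Pool.Agent.Run7.h414.PM.PalD.final k θ hθ1 (fun N K w a => (R {m | ω ∈ A m} k N K w a : ℝ))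
        (fun N K w a => E z k N K w a) hE (by
          intro η' hη'
          obtain ⟨C, hC0, hC⟩ := hω η' hη'
          refine ⟨C, hC0, ?_⟩
          filter_upwards [hC] with N hN K w a hadm
          rw [hR]
          exact hN K w a hadm) η hη
      filter_upwards [hf] with N hN K w a hx
      exact hN K hx.1 w hx.2.1 hx.2.2.1 hx.2.2.2.1 a hx.2.2.2.2
  refine ⟨hpart, ?_⟩
  intro C z Q hz hQ Ω m0 μ hμ J hJ
  have hpow : ∀ ε : ℝ, 0 < ε → ∀ᶠ m : ℕ in atTop, (z m : ℝ) ≤ (m : ℝ) ^ ε := by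
    intro ε hε
    have h0 := (isLittleO_log_rpow_atTop hε).def (c := 1 / ((C : ℝ) + 1)) (by positivity)
    filter_upwards [hz, tendsto_natCast_atTop_atTop.eventually h0, Pool.Agent.Run7.h414.PM.PalD.logt'.eventually_ge_atTop 1]
      with m h1 h2 h3
    rw [Real.norm_of_nonneg (by linarith), Real.norm_of_nonneg (by positivity)] at h2
    have h4 : Real.log (Real.log m) ≤ Real.log m := (Real.log_le_sub_one_of_pos (by linarith)).trans (by linarith)
    have h5 : (0 : ℝ) ≤ C := Nat.cast_nonneg C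
    have h6 : ((C : ℝ) + 1) * Real.log m ≤ (m : ℝ) ^ ε := by
      have := mul_le_mul_of_nonneg_left h2 (by positivity : (0 : ℝ) ≤ (C : ℝ) + 1)
      rwa [← mul_assoc, mul_one_div_cancel (by positivity), one_mul] at this
    nlinarith
  have hz1 := hpow ((1 - θ) / 51) (by positivity)
  have hV1 : ∀ᶠ m : ℕ in atTop, V (z m) < Real.log m := by
    obtain ⟨δ, hδ, h⟩ := Pool.Agent.N233.GM.W_small
    filter_upwards [h z (hpow δ hδ), Pool.Agent.Run7.h414.PM.PalD.logt'.eventually_ge_atTop 1] with m h1 h2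
    rw [div_lt_one (by linarith)] at h1
    exact h1
  obtain ⟨ℱ, g1, g2, g3⟩ := Pool.Agent.Run7.h414.PM.pert z Q C hz hQ J ⟨hJ.measurable, hJ.independent, hJ.uniform⟩
  exact (hpart z hz1 hV1).2 Ω m0 μ hμ ℱ (Pool.Agent.Run7.h414.PM.PA z J) ⟨g1, g2, g3⟩

end Pool.Agent.Results.MP_540de1_nt.ModelsMissingDigits
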