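import Pool.Agent.Run7.h620.PD.Wl

set_option autoImplicit false

/-!
# Almost prime palindromes with prescribed outer digits

Let `b ≥ 2`. For digits `e ≠ f` and a word `w` of digits consider the palindromes `n` with `L + 2 |w|` base `b` digits
which begin with `w` (and so end with `w` in the reverse order) and whose other `L` digits are all `e` or `f`. There are
about `2 ^ (L / 2)` such `n`, and they lie in an interval of length `b ^ (L + |w|)`. At least `c 2 ^ (L / 2) / L` of
them have at most `r (L + 2 |w|) / L` prime factors, counted with multiplicity, for all `L ≥ L₀`, all `e ≠ f` and all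
words `w` of any length, if the last `|w|` digits do not force a high power of a prime divisor of `b`.

Proof. The inner part is a palindrome with two digits, multiplied by `b ^ |w|`, plus a constant. The exponential sum
over this family at a fraction `a / q` with `q` prime to `b` is small, if `b ^ |w| a / q` has many nonzero balanced
digits; the number of these digits is estimated for all fractions with denominators up to `exp (c L)` at once, and
multiplication by `b ^ |w|` permutes the fractions. The residue class modulo a fixed number, in which no member is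
divisible by a high power of a small prime, is found by a counting argument.
-/

namespace Pool.Agent.Results.MP_540de1_nt.PrescribedOuterDigits

open Finset Filter

/-- `n` has exactly `L + 2 |w|` base `b` digits, they read the same backwards, the first `|w|` digits and the last
`|w|` digits are those of `w`, and the other `L` digits are `e` or `f`. -/
def Pal (b e f L : ℕ) (w : List ℕ) (n : ℕ) : Prop :=
  (Nat.digits b n).length = L + 2 * w.length ∧ (Nat.digits b n).reverse = Nat.digits b n ∧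
    ∃ v : List ℕ, Nat.digits b n = w ++ v ++ w.reverse ∧ ∀ x ∈ v, x = e ∨ x = f

open Classical in
theorem one (b : ℕ) (hb : 2 ≤ b) (e f : ℕ) (he : e < b) (hf : f < b) (hef : e ≠ f) (h : ℕ) :
    ∃ c : ℝ, 0 < c ∧ ∃ r L₀ : ℕ, ∀ L : ℕ, L₀ ≤ L → ∀ w : List ℕ, (∀ x ∈ w, x < b) → w.headI ≠ 0 →
      (∀ p : ℕ, p.Prime → p ∣ b → ¬ p ^ (min h w.length) ∣ Nat.ofDigits b w) →
      c * (2 : ℝ) ^ ((L : ℝ) / 2) / L ≤
        (((Finset.range (b ^ (L + 2 * w.length))).filter (fun n : ℕ => Pal b e f L w n ∧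
          n.primeFactorsList.length * L ≤ r * (L + 2 * w.length))).card : ℝ) := by
  obtain ⟨c, hc, r, L₀, hev⟩ := Pool.Agent.Run7.h620.PD.w_low b hb e f he hf (Ne.symm hef) h
  refine ⟨c, hc, r, L₀, ?_⟩
  intro L hL w hw hw0 hdiv
  cases w with
  | nil => exact absurd rfl hw0
  | cons d w =>
    rw [List.length_cons] at hdiv ⊢
    obtain ⟨P, hP1, hP2⟩ := hev L hL d w (hw d List.mem_cons_self) hw0 (fun x hx => hw x (List.mem_cons_of_mem d hx)) hdiv
    refine hP1.trans ?_
    have hle : P ⊆ (Finset.range (b ^ (L + 2 * (w.length + 1)))).filter (fun n : ℕ => Pal b e f L (d :: w) n ∧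
        n.primeFactorsList.length * L ≤ r * (L + 2 * (w.length + 1))) := by
      intro n hn
      obtain ⟨g1, g2, g3, g4, g5⟩ := hP2 n hn
      rw [mem_filter, mem_range]
      rw [ArithmeticFunction.cardFactors_apply] at g5
      refine ⟨g1, ⟨?_, g3, g4⟩, g5⟩
      rw [List.length_cons]
      exact g2
    exact_mod_cast card_le_card hle

open Classical in
/-- **Almost prime palindromes with prescribed outer digits.** -/
theorem result : ∀ b : ℕ, 2 ≤ b → ∀ h : ℕ,
    ∃ c : ℝ, 0 < c ∧ ∃ r L₀ : ℕ, ∀ e f : ℕ, e < b → f < b → e ≠ f → ∀ L : ℕ, L₀ ≤ L → ∀ w : List ℕ,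
      (∀ x ∈ w, x < b) → w.headI ≠ 0 →
      (∀ p : ℕ, p.Prime → p ∣ b → ¬ p ^ (min h w.length) ∣ Nat.ofDigits b w) →
      c * (2 : ℝ) ^ ((L : ℝ) / 2) / L ≤
        (((Finset.range (b ^ (L + 2 * w.length))).filter (fun n : ℕ => Pal b e f L w n ∧
          n.primeFactorsList.length * L ≤ r * (L + 2 * w.length))).card : ℝ) := by
  intro b hb h
  have h1 : ∀ x : ℕ × ℕ, ∃ c : ℝ, 0 < c ∧ ∃ r L₀ : ℕ, (x.1 < b → x.2 < b → x.1 ≠ x.2 → ∀ L : ℕ, L₀ ≤ L → ∀ w : List ℕ,
      (∀ x ∈ w, x < b) → w.headI ≠ 0 →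
      (∀ p : ℕ, p.Prime → p ∣ b → ¬ p ^ (min h w.length) ∣ Nat.ofDigits b w) →
      c * (2 : ℝ) ^ ((L : ℝ) / 2) / L ≤
        (((Finset.range (b ^ (L + 2 * w.length))).filter (fun n : ℕ => Pal b x.1 x.2 L w n ∧
          n.primeFactorsList.length * L ≤ r * (L + 2 * w.length))).card : ℝ)) := by
    intro x
    by_cases hx : x.1 < b ∧ x.2 < b ∧ x.1 ≠ x.2
    · obtain ⟨c, hc, r, L₀, h2⟩ := one b hb x.1 x.2 hx.1 hx.2.1 hx.2.2 h
      exact ⟨c, hc, r, L₀, fun _ _ _ => h2⟩
    · exact ⟨1, one_pos, 0, 0, fun g1 g2 g3 => absurd ⟨g1, g2, g3⟩ hx⟩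
  choose c hc r L₀ h2 using h1
  have hne : (range b ×ˢ range b).Nonempty :=
    ⟨(0, 0), mem_product.2 ⟨mem_range.2 (by omega), mem_range.2 (by omega)⟩⟩
  obtain ⟨y, hy, hmin⟩ := exists_min_image (range b ×ˢ range b) c hne
  refine ⟨c y, hc y, ∑ x ∈ range b ×ˢ range b, r x, ∑ x ∈ range b ×ˢ range b, L₀ x, ?_⟩
  intro e f he hf hef L hL w hw hw0 hdiv
  have hmem : (e, f) ∈ range b ×ˢ range b := mem_product.2 ⟨mem_range.2 he, mem_range.2 hf⟩
  have hr : r (e, f) ≤ ∑ x ∈ range b ×ˢ range b, r x := single_le_sum (fun _ _ => Nat.zero_le _) hmem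
  have hL0 : L₀ (e, f) ≤ ∑ x ∈ range b ×ˢ range b, L₀ x := single_le_sum (fun _ _ => Nat.zero_le _) hmem
  have h3 := h2 (e, f) he hf hef L (hL0.trans hL) w hw hw0 hdiv
  have h4 : c y * (2 : ℝ) ^ ((L : ℝ) / 2) / L ≤ c (e, f) * (2 : ℝ) ^ ((L : ℝ) / 2) / L := by
    have := hmin (e, f) hmem
    gcongr
  refine h4.trans (h3.trans ?_)
  have h5 : (Finset.range (b ^ (L + 2 * w.length))).filter (fun n : ℕ => Pal b e f L w n ∧
          n.primeFactorsList.length * L ≤ r (e, f) * (L + 2 * w.length)) ⊆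
      (Finset.range (b ^ (L + 2 * w.length))).filter (fun n : ℕ => Pal b e f L w n ∧
          n.primeFactorsList.length * L ≤ (∑ x ∈ range b ×ˢ range b, r x) * (L + 2 * w.length)) := by
    intro n hn
    rw [mem_filter] at hn ⊢
    exact ⟨hn.1, hn.2.1, hn.2.2.trans (Nat.mul_le_mul_right _ hr)⟩
  exact_mod_cast card_le_card h5

end Pool.Agent.Results.MP_540de1_nt.PrescribedOuterDigits
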