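import Pool.Agent.Run7.h620.PD.Cu

set_option autoImplicit false

/-!
# Palindromes with two digits in residue classes to large moduli: almost primes and primes

Let `A K` be the set of the palindromes with exactly `K` base `b` digits, all of them `e` or `f`. Every class `a`
modulo `q`, with `a` prime to `q`, contains the expected number of members of `A K` with a bounded number of prime
factors, and at most the expected number of primes, up to constants, for every modulus `q ≤ exp (η K / log K)`
prime to `b (b ^ 2 - 1) (f - e)`.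

Proof. Sieve of dimension one in the class, the primes dividing `q` left out. The members of `A K` in the class are
counted by the exponential sums of the family with the denominators `q d`, `d` up to `exp (c K)`. The sieve product
without the primes dividing `q` has the factor `q / φ(q)`. The small primes not dividing `q` are treated by a fixed
class modulo powers of them, for each of the finitely many sets of small primes.
-/

namespace Pool.Agent.Results.MP_540de1_nt.TwoDigitPalindromesInClasses

open Finset Filter

open Classical in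
/-- The set of the palindromes with exactly `K` base `b` digits, all of them `e` or `f`. -/
noncomputable def A (b e f K : ℕ) : Finset ℕ := (Finset.range (b ^ K)).filter (fun n : ℕ =>
  (Nat.digits b n).length = K ∧ (Nat.digits b n).reverse = Nat.digits b n ∧ ∀ d ∈ Nat.digits b n, d = e ∨ d = f)

open Pool.Agent.Run7.h620.PD in
open Classical in
/-- **Almost primes and primes among the palindromes with two digits in a residue class to a large modulus.** -/
theorem result : ∀ b : ℕ, 2 ≤ b → ∀ e f : ℕ, e < b → f < b → e ≠ 0 → e ≠ f →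
    ∃ c C η : ℝ, 0 < c ∧ 0 < C ∧ 0 < η ∧ ∃ r : ℕ, ∀ᶠ K : ℕ in atTop, ∀ q : ℕ, 1 ≤ q →
      (q : ℝ) ≤ Real.exp (η * K / Real.log K) →
      IsCoprime (q : ℤ) ((b : ℤ) * ((b : ℤ) ^ 2 - 1) * ((f : ℤ) - e)) → ∀ a : ℤ, IsCoprime a (q : ℤ) →
      c * (2 : ℝ) ^ ((K : ℝ) / 2) / (Nat.totient q * K) ≤
        (((A b e f K).filter (fun n : ℕ => (q : ℤ) ∣ (n : ℤ) - a ∧ n.primeFactorsList.length ≤ r)).card : ℝ) ∧
      (((A b e f K).filter (fun n : ℕ => (q : ℤ) ∣ (n : ℤ) - a ∧ n.Prime)).card : ℝ) ≤
        C * (2 : ℝ) ^ ((K : ℝ) / 2) / (Nat.totient q * K) := by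
  intro b hb e f he hf he0 hef
  obtain ⟨c, hc, η₁, hη₁, r, h1⟩ := class_low b hb e f he hf he0 (Ne.symm hef)
  obtain ⟨C, hC, η₂, hη₂, h2⟩ := class_up b hb e f (Ne.symm hef)
  refine ⟨c, C, min η₁ η₂, hc, hC, lt_min hη₁ hη₂, r, ?_⟩
  filter_upwards [h1, h2, eventually_ge_atTop 2] with K hK1 hK2 hK q hq hqle hcop a ha
  have hlog : 0 < Real.log K := Real.log_pos (by
    have : 1 < K := by omega
    exact_mod_cast this)
  have hcop' : IsCoprime (q : ℤ) ((b : ℤ) * (((b : ℤ) ^ 2 - 1) * ((f : ℤ) - e))) := by rwa [← mul_assoc]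
  constructor
  · obtain ⟨P, hP1, hP2⟩ := hK1 q a hq (hqle.trans (by
      apply Real.exp_le_exp.2
      have := min_le_left η₁ η₂
      gcongr)) hcop' ha
    refine hP1.trans ?_
    have h3 : P ⊆ (A b e f K).filter (fun n : ℕ => (q : ℤ) ∣ (n : ℤ) - a ∧ n.primeFactorsList.length ≤ r) := by
      intro n hn
      obtain ⟨g1, g2, g3, g4⟩ := hP2 n hn
      rw [mem_filter]
      unfold A
      rw [mem_filter, mem_range]
      rw [ArithmeticFunction.cardFactors_apply] at g4
      exact ⟨⟨g1, g2⟩, g3, g4⟩
    exact_mod_cast card_le_card h3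
  · apply hK2 q a hq (hqle.trans (by
      apply Real.exp_le_exp.2
      have := min_le_right η₁ η₂
      gcongr)) hcop'
    intro n hn
    rw [mem_filter] at hn
    unfold A at hn
    rw [mem_filter] at hn
    exact ⟨hn.1.2, hn.2.1, hn.2.2⟩

end Pool.Agent.Results.MP_540de1_nt.TwoDigitPalindromesInClasses
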